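import Pool.Agent.H84.NT.Targets3

/-!
# The events `DE` of different blocks are disjoint
-/

open MeasureTheory ProbabilityTheory
open scoped ENNReal

namespace Pool.Agent.H3.NT

open Pool.Agent.H99.NS Pool.Agent.H22.LPP Pool.Agent.H95.INS Pool.Agent.H84.NT

theorem near_shift_fwd {ω : Env} {a o e : Site} {c : ℝ} {g : ℤ → ℤ}
    (h : Near (shiftE a ω) (o - a) (e - a) c g) :
    Near ω o e c (fun r => g (r - a.1) + a.2) := by
  obtain ⟨h1, h2⟩ := h
  have h3 := conn_shift a h1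
  rw [T_shift, wt_shift] at h2
  simp only [Prod.fst_sub, sub_add_cancel] at h2 h3
  exact ⟨h3, h2⟩

theorem near_shift_bwd {ω : Env} {a o e : Site} {c : ℝ} {g : ℤ → ℤ}
    (h : Near ω o e c g) :
    Near (shiftE a ω) (o - a) (e - a) c (fun r => g (r + a.1) - a.2) := by
  obtain ⟨h1, h2⟩ := h
  refine ⟨?_, ?_⟩
  · have h3 := conn_shift (-a) h1
    simp only [Prod.fst_neg, Prod.snd_neg, sub_neg_eq_add, ← sub_eq_add_neg] at h3
    exact h3
  · rw [T_shift, wt_shift]
    simp only [Prod.fst_sub, sub_add_cancel]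
    exact h2

theorem pf_DED : T_DED := by
  intro D ω o e J1 J2 c c' x x' hn h1 h2 h3 h4 h5 h
  obtain ⟨⟨⟨g, g', hg, hg', hd⟩, _⟩, ⟨_, hm⟩⟩ := h
  have k := near_shift_bwd (a := (c', x')) (near_shift_fwd hg)
  have k' := near_shift_bwd (a := (c', x')) (near_shift_fwd hg')
  obtain ⟨r, hr1, hr2, hr3⟩ := hm _ _ k k'
  simp only at hr3
  have h6 : g (r + c' - c) = g' (r + c' - c) := by omega
  refine hd (r + c' - c) (by omega) (by omega) ?_ h6
  rintro ⟨h7, h8⟩
  rcases abs_cases (c - c') with ⟨h9, _⟩ | ⟨h9, _⟩ <;> omega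

end Pool.Agent.H3.NT
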