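import Pool.Agent.H3.NT.FTNc

/-!
# Fat near ties: assembly
-/

open MeasureTheory ProbabilityTheory
open scoped ENNReal

namespace Pool.Agent.H3.NT

open Pool.Agent.H99.NS Pool.Agent.H22.LPP Pool.Agent.H95.INS Pool.Agent.H76.ND Pool.Agent.H95.ND
open Pool.Agent.H84.NT hiding lv two_lv
open Pool.Agent.H84.NT5
open Pool.Agent.H3.NT.F

namespace F

theorem num_kp {Cκ K0 : ℝ} {v v0 : ℕ} (hC : 1 ≤ Cκ) (hK : 1 ≤ K0) (hv : v0 ≤ v)
    (h : 64 * (Cκ * K0 ^ 4) ≤ 2 ^ v0) : 0 ≤ kp Cκ K0 (5 * v) ∧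
      64 * kp Cκ K0 (5 * v) ≤ 16 ^ (4 * v) ∧
      kp Cκ K0 (5 * v) * 4 ^ (16 * v + 1) ≤ 64 ^ (16 * v) := by
  have h0 : 0 ≤ kp Cκ K0 (5 * v) := by unfold kp; positivity
  have h1 : 64 * kp Cκ K0 (5 * v) ≤ 16 ^ (4 * v) := by
    unfold kp
    have e1 : ((101 : ℝ) / 100) ^ (4 * (5 * v)) ≤ 2 ^ v := by
      have : ((101 : ℝ) / 100) ^ (4 * (5 * v)) = ((101 / 100) ^ 20) ^ v := by
        rw [← pow_mul]; congr 1; ring
      rw [this]
      exact pow_le_pow_left₀ (by positivity) (by norm_num) v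
    have e2 : (64 : ℝ) * (Cκ * K0 ^ 4) ≤ 2 ^ v :=
      le_trans h (pow_le_pow_right₀ (by norm_num) hv)
    have e3 : (64 : ℝ) * (Cκ * K0 ^ 4 * (101 / 100) ^ (4 * (5 * v))) ≤ 2 ^ v * 2 ^ v := by
      have : (64 : ℝ) * (Cκ * K0 ^ 4 * (101 / 100) ^ (4 * (5 * v))) =
        64 * (Cκ * K0 ^ 4) * (101 / 100) ^ (4 * (5 * v)) := by ring
      rw [this]
      exact mul_le_mul e2 e1 (by positivity) (by positivity)
    refine le_trans e3 ?_
    rw [← pow_add]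
    have e4 : (16 : ℝ) ^ (4 * v) = 2 ^ (16 * v) := by
      rw [show (16 : ℝ) = 2 ^ 4 by norm_num, ← pow_mul]; congr 1; ring
    rw [e4]
    exact pow_le_pow_right₀ (by norm_num) (by omega)
  refine ⟨h0, h1, ?_⟩
  have e1 : (64 : ℝ) ^ (16 * v) = 16 ^ (16 * v) * 4 ^ (16 * v) := by
    rw [← mul_pow]; norm_num
  have e2 : (16 : ℝ) ^ (4 * v) ≤ 16 ^ (16 * v) := pow_le_pow_right₀ (by norm_num) (by omega)
  rw [e1, pow_succ]
  have e3 : (0 : ℝ) < 4 ^ (16 * v) := by positivity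
  have e4 : kp Cκ K0 (5 * v) * 4 ≤ 16 ^ (16 * v) := by linarith
  nlinarith

theorem num_A (v : ℕ) : (16 : ℝ) ^ v * ((4 * 16 ^ (20 * v) + 3) * Real.exp (-(64 ^ (16 * v)))) ≤
    7 * (1 / 16) ^ v := by
  have h1 : (64 : ℝ) ^ (16 * v) ≤ Real.exp (64 ^ (16 * v)) := by
    have := Real.add_one_le_exp ((64 : ℝ) ^ (16 * v)); linarith
  have h2 : (64 : ℝ) ^ (16 * v) = 16 ^ (24 * v) := by
    rw [pow_mul, pow_mul]; norm_num
  have h3 : (16 : ℝ) ^ (22 * v) ≤ 16 ^ (24 * v) := pow_le_pow_right₀ (by norm_num) (by omega)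
  have h4 : (16 : ℝ) ^ v * 16 ^ v * (4 * 16 ^ (20 * v) + 3) ≤ 7 * 16 ^ (22 * v) := by
    have e1 : (16 : ℝ) ^ v * 16 ^ v * 16 ^ (20 * v) = 16 ^ (22 * v) := by
      rw [← pow_add, ← pow_add]; congr 1; ring
    have e2 : (16 : ℝ) ^ v * 16 ^ v ≤ 16 ^ (22 * v) := by
      rw [← pow_add]; exact pow_le_pow_right₀ (by norm_num) (by omega)
    nlinarith
  have h5 : (0 : ℝ) < Real.exp (64 ^ (16 * v)) := Real.exp_pos _
  rw [Real.exp_neg, one_div, inv_pow]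
  have h6 : (0 : ℝ) < 16 ^ v := by positivity
  rw [← div_eq_mul_inv, ← div_eq_mul_inv, ← mul_div_assoc, div_le_div_iff₀ h5 h6]
  calc (16 : ℝ) ^ v * (4 * 16 ^ (20 * v) + 3) * 16 ^ v
      = 16 ^ v * 16 ^ v * (4 * 16 ^ (20 * v) + 3) := by ring
    _ ≤ 7 * 16 ^ (22 * v) := h4
    _ ≤ 7 * Real.exp (64 ^ (16 * v)) := by linarith [h1, h2.symm.le, h2.le]

theorem num_B (v : ℕ) {W : ℤ} (hW : W * 16 = 4 * 16 ^ (20 * v)) :
    (16 : ℝ) ^ v * √((W : ℝ) / ((64 ^ (16 * v) : ℕ) : ℝ)) ≤ (1 / 16) ^ v := by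
  have hW' : (W : ℝ) * 16 = 4 * 16 ^ (20 * v) := by exact_mod_cast hW
  have h1 : √((W : ℝ) / ((64 ^ (16 * v) : ℕ) : ℝ)) ≤ (1 / 16) ^ (2 * v) := by
    rw [Real.sqrt_le_iff]
    refine ⟨by positivity, ?_⟩
    push_cast
    have h2 : (64 : ℝ) ^ (16 * v) = 16 ^ (24 * v) := by
      rw [pow_mul, pow_mul]; norm_num
    rw [h2, div_le_iff₀ (by positivity)]
    have h4 : (((1 : ℝ) / 16) ^ (2 * v)) ^ 2 * 16 ^ (24 * v) = 16 ^ (20 * v) := by
      rw [← pow_mul, one_div, inv_pow]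
      have : (16 : ℝ) ^ (24 * v) = 16 ^ (2 * v * 2) * 16 ^ (20 * v) := by
        rw [← pow_add]; congr 1; ring
      rw [this, ← mul_assoc, inv_mul_cancel₀ (by positivity), one_mul]
    rw [h4]
    have : (0 : ℝ) < 16 ^ (20 * v) := by positivity
    linarith
  have h5 : (16 : ℝ) ^ v * (1 / 16) ^ (2 * v) = (1 / 16) ^ v := by
    rw [two_mul, pow_add, ← mul_assoc, ← mul_pow]; norm_num
  calc _ ≤ (16 : ℝ) ^ v * (1 / 16) ^ (2 * v) := mul_le_mul_of_nonneg_left h1 (by positivity)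
    _ = _ := h5

theorem num_C (v : ℕ) : Real.exp (-(10 * (v : ℝ))) ≤ (1 / 16) ^ v := by
  have h1 : (16 : ℝ) ≤ Real.exp 10 := by
    have h2 := Real.add_one_le_exp (5 : ℝ)
    have h3 : Real.exp 10 = Real.exp 5 * Real.exp 5 := by rw [← Real.exp_add]; norm_num
    rw [h3]; nlinarith
  have h4 : Real.exp (-(10 * (v : ℝ))) = (Real.exp 10)⁻¹ ^ v := by
    rw [← Real.exp_neg, ← Real.exp_nat_mul]; congr 1; ring
  rw [h4, one_div]
  exact pow_le_pow_left₀ (by positivity) (inv_anti₀ (by norm_num) h1) v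

theorem num_E {c K : ℝ} : Real.exp (-Real.exp (c * K)) ≤ Real.exp (-(c * K)) := by
  apply Real.exp_le_exp.2
  have := Real.add_one_le_exp (c * K)
  linarith

end F

theorem pf_FTN (h_OR : T_OR) (h_ING : T_ING) (h_BLK : T_BLK) (h_FIC : T_FIC) (h_FIM : T_FIM)
    (h_LAM : B_LAM) : T_FTN := by
  classical
  intro q hq0 hq1 ⟨c, hcq, hK0, hA, hP1⟩ ⟨CG, hCG, hGRP⟩ hACq hRG hTP
  subst hcq
  obtain ⟨Cd, hCd, hBLK⟩ := h_BLK c.q CG hq0 hq1 hCG.le
  obtain ⟨K1, Cf, hK1, hCf, hFIC⟩ := h_FIC c.q Cd hq0 hq1 hCd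
  obtain ⟨CA, R, k0, hCA, hR, hk0, hAC⟩ := hACq K1 Cf (by linarith) hCf
  obtain ⟨Cκ, hCκ, hOR⟩ := h_OR c.q hq0 hq1
  obtain ⟨CP, cP, hCP, hcP, KP, hP⟩ := hP1
  obtain ⟨CR, cR, hCR, hcR, KR, hRGN⟩ := hRG
  obtain ⟨CT, cT, hCT, hcT, hTOPN⟩ := hTP
  have hING := h_ING c.q CG hGRP
  obtain ⟨v0, hv0⟩ := pow_unbounded_of_one_lt (64 * (Cκ * c.K0 ^ 4) + (R + 2 : ℝ))
    (by norm_num : (1 : ℝ) < 2)
  have hM0 : 1 ≤ Cκ * c.K0 ^ 4 := by
    have : (1 : ℝ) ≤ c.K0 ^ 4 := one_le_pow₀ hK0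
    nlinarith
  have hR' : (2 : ℝ) ≤ R := by exact_mod_cast hR
  set cc : ℝ := min (cT / 256) (min cR cP) with hcc
  have hcc0 : 0 < cc := by rw [hcc]; positivity
  set CC : ℝ := CR + CT + CP * (7 + CA + 1 + 1) + 16 ^ v0 with hCC
  have hCC0 : 0 < CC := by rw [hCC]; positivity
  refine ⟨CC, cc, 1 / 2800, 8, KP + KR + 140 * k0 + 1200, hCC0, hcc0, by norm_num, ?_⟩
  intro K b v t hKK hKb hbK hvK ht
  have hv' : 2800 * v ≤ K := by
    have : (2800 : ℝ) * v ≤ K := by linarith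
    exact_mod_cast this
  rcases lt_or_ge v v0 with hvv | hvv
  · -- trivial bound
    refine le_trans prob_le_one ?_
    rw [← ENNReal.ofReal_one]
    apply ENNReal.ofReal_le_ofReal
    have h1 : (1 : ℝ) ≤ 16 ^ v0 * (1 / 16) ^ v := by
      rw [one_div, inv_pow, ← div_eq_mul_inv, le_div_iff₀ (by positivity), one_mul]
      exact pow_le_pow_right₀ (by norm_num) hvv.le
    have h2 : (16 : ℝ) ^ v0 ≤ CC := by
      rw [hCC]
      have : 0 ≤ CR + CT + CP * (7 + CA + 1 + 1) := by positivity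
      linarith
    have h3 : (0 : ℝ) < (1 / 16) ^ v := by positivity
    calc (1 : ℝ) ≤ 16 ^ v0 * (1 / 16) ^ v := h1
      _ ≤ CC * (1 / 16) ^ v := mul_le_mul_of_nonneg_right h2 h3.le
      _ ≤ _ := by
        apply mul_le_mul_of_nonneg_left _ hCC0.le
        have := Real.exp_pos (-(cc * 2 ^ (K - b)))
        have := Real.exp_pos (-(cc * (K : ℝ)))
        linarith
  -- parameters
  have hv1 : 1 ≤ v := by
    by_contra hcon
    have : v0 = 0 := by omega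
    rw [this] at hv0
    norm_num at hv0
    linarith
  obtain ⟨k3, hk3⟩ : ∃ k3, b = k3 + 1 + 20 * v := ⟨b - 1 - 20 * v, by omega⟩
  have hbk : b - 20 * v = k3 + 1 := by omega
  rw [hbk]
  obtain ⟨W, hWd⟩ : ∃ W : ℤ, W = 4 * 16 ^ (20 * v - 1) := ⟨_, rfl⟩
  have hW : W * 16 = 4 * 16 ^ (20 * v) := by
    rw [hWd]
    have : (16 : ℤ) ^ (20 * v) = 16 ^ (20 * v - 1) * 16 := by
      rw [← pow_succ]; congr 1; omega
    rw [this]; ring
  have hkp := F.num_kp (v := v) (v0 := v0) hCκ hK0 hvv (by linarith)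
  obtain ⟨hκ0, hκ1, hκ2⟩ := hkp
  have hWR : 2 * R + 4 ≤ W := by
    have h1 : (R + 2 : ℝ) ≤ 2 ^ v := by
      have : (2 : ℝ) ^ v0 ≤ 2 ^ v := pow_le_pow_right₀ (by norm_num) hvv
      linarith
    have h2 : R + 2 ≤ 2 ^ v := by exact_mod_cast h1
    have h3 : (2 : ℤ) ^ v * 16 ≤ 16 ^ (20 * v) := by
      have e1 : (2 : ℤ) ^ v ≤ 16 ^ v := pow_le_pow_left₀ (by norm_num) (by norm_num) v
      have e2 : (16 : ℤ) ^ v * 16 ≤ 16 ^ (20 * v) := by
        rw [← pow_succ]; exact pow_le_pow_right₀ (by norm_num) (by omega)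
      linarith
    linarith
  set D : ℝ := (8 / 3) ^ (K - 2 - (k3 + 1 + 16 * v)) / 64 with hD
  have hD1 : 1 ≤ D := by
    rw [hD, le_div_iff₀ (by norm_num)]
    have h1 : ((8 : ℝ) / 3) ^ 5 ≤ (8 / 3) ^ (K - 2 - (k3 + 1 + 16 * v)) :=
      pow_le_pow_right₀ (by norm_num) (by omega)
    refine le_trans ?_ h1
    norm_num
  have hD2 : 64 * D * (3 / 8) ^ (K - 2 - (k3 + 1 + 16 * v)) ≤ 1 := by
    rw [hD]
    have : (64 : ℝ) * ((8 / 3) ^ (K - 2 - (k3 + 1 + 16 * v)) / 64) *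
        (3 / 8) ^ (K - 2 - (k3 + 1 + 16 * v)) =
        ((8 / 3) * (3 / 8)) ^ (K - 2 - (k3 + 1 + 16 * v)) := by
      rw [mul_pow]; ring
    rw [this]; norm_num
  have hD3 : (2 : ℝ) ^ (K - b) / 256 ≤ D := by
    rw [hD, div_le_div_iff₀ (by norm_num) (by norm_num)]
    have h1 : (2 : ℝ) ^ (K - 2 - (k3 + 1 + 16 * v)) ≤ (8 / 3) ^ (K - 2 - (k3 + 1 + 16 * v)) :=
      pow_le_pow_left₀ (by norm_num) (by norm_num) _
    have h2 : (2 : ℝ) ^ (K - b) ≤ 2 ^ (K - 2 - (k3 + 1 + 16 * v) + 2) :=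
      pow_le_pow_right₀ (by norm_num) (by omega)
    rw [pow_add] at h2
    have h3 : (0 : ℝ) < 2 ^ (K - b) := by positivity
    linarith
  have hXf : 64 ≤ Xf K := by
    unfold Xf
    have : (4 : ℤ) ^ 3 ≤ 4 ^ (K / 400) := pow_le_pow_right₀ (by norm_num) (by omega)
    linarith
  have hXf4 : 4 * Xf K ≤ 4 ^ (k3 + 1 + 16 * v) := by
    unfold Xf
    have : (4 : ℤ) ^ (K / 400 + 1) ≤ 4 ^ (k3 + 1 + 16 * v) :=
      pow_le_pow_right₀ (by norm_num) (by omega)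
    rw [pow_succ] at this
    linarith
  have hp64 : (0 : ℤ) < 64 ^ (K - 1) := by positivity
  have ht20 : |t| ≤ 20 * 64 ^ (K - 1) := by linarith
  -- one window
  set C2 : ℝ := CA * √((W : ℝ) / ((64 ^ (16 * v) : ℕ) : ℝ)) with hC2
  have hC20 : 0 ≤ C2 := by rw [hC2]; positivity
  set β : ℝ := (4 * 16 ^ (20 * v) + 3) * Real.exp (-(64 ^ (16 * v))) + C2 with hβ
  have hβ0 : 0 ≤ β := by rw [hβ]; positivity
  have hwin := hP K (k3 + 1 + 16 * v) (k3 + 20 * v) v (by omega) (by omega) (by omega) (by omega)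
    t ht20 (fun w => BD K k3 v D t w) β hβ0 (fun w => meas_BD h_FIM K k3 v D t w) (by
      intro w k hk1 hk2 out
      refine window h_LAM h_FIM c hBLK hFIC hING hA hK1 hW hv1 hκ0 hκ1 hκ2 ht (by omega) hk1
        ?_ ?_ out
      · intro ω hg h1 h2 h3
        exact ⟨_, hOR c K (k3 + 1 + 16 * v) (k3 + 20 * v) (5 * v) k t w D ω rfl hK0 (by omega)
          (by omega) (by omega) hk1 (by omega) (by omega) ht20 hXf hXf4 hg h1 h2 (by linarith)
          hD2 h3⟩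
      · intro t0 xc b0 out' h1 h2 h3
        exact hAC (k3 + 1) (64 ^ (16 * v)) W t0 xc (oK K) (eK K) b0 (K1 / 4 * 4 ^ (k3 + 1)) out'
          (by omega) (Nat.one_le_pow _ _ (by norm_num)) hWR (reachK K) h1 h2 h3 (by positivity) le_rfl)
  -- the inclusion
  have hsub : {ω | ∃ γ, Near ω (oK K) (eK K) (4 ^ (k3 + 1) / 4) γ ∧
      16 ^ b ≤ |γ t - LK K ω t|} ⊆
      ({ω | ¬ RGk K ω} ∪ {ω | ¬ TOPk D K ω}) ∪
        {ω | ∃ w : ℤ, LK K ω t ∈ win (k3 + 20 * v) w ∧ ω ∈ BD K k3 v D t w} := by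
    rintro ω ⟨γ, h1, h2⟩
    by_cases h3 : RGk K ω
    · by_cases h4 : TOPk D K ω
      · right
        have hp : (0 : ℤ) < 16 ^ (k3 + 20 * v) := by positivity
        have h5 : LK K ω t ∈ win (k3 + 20 * v) (LK K ω t / 16 ^ (k3 + 20 * v)) := by
          refine ⟨Int.ediv_mul_le _ hp.ne', ?_⟩
          exact Int.lt_ediv_add_one_mul_self _ hp
        refine ⟨_, h5, h5, h3, h4, γ, h1, ?_⟩
        rw [← hk3]; exact h2
      · exact Or.inl (Or.inr h4)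
    · exact Or.inl (Or.inl h3)
  refine le_trans (measure_mono hsub) ?_
  refine le_trans (measure_union_le _ _) ?_
  refine le_trans (add_le_add (measure_union_le _ _) hwin) ?_
  have hE1 := hRGN K (by omega)
  have hE2 := hTOPN K D (by omega) hD1
  refine le_trans (add_le_add (add_le_add hE1 hE2) le_rfl) ?_
  rw [← ENNReal.ofReal_add (by positivity) (by positivity),
    ← ENNReal.ofReal_add (by positivity) (by positivity)]
  apply ENNReal.ofReal_le_ofReal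
  -- numerics
  have n1 : (16 : ℝ) ^ v * β ≤ (7 + CA) * (1 / 16) ^ v := by
    rw [hβ, mul_add]
    have e1 := F.num_A v
    have e2 : (16 : ℝ) ^ v * C2 ≤ CA * (1 / 16) ^ v := by
      rw [hC2]
      have := mul_le_mul_of_nonneg_left (F.num_B v hW) hCA.le
      linarith
    linarith
  have n2 := F.num_C v
  have hKp : (0 : ℝ) ≤ K := by positivity
  have hc1 : cc ≤ cT / 256 := min_le_left _ _
  have hc2 : cc ≤ cR := le_trans (min_le_right _ _) (min_le_left _ _)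
  have hc3 : cc ≤ cP := le_trans (min_le_right _ _) (min_le_right _ _)
  have n3 : Real.exp (-Real.exp (cR * K)) ≤ Real.exp (-(cc * K)) := by
    refine le_trans F.num_E (Real.exp_le_exp.2 ?_)
    have := mul_le_mul_of_nonneg_right hc2 hKp
    linarith
  have n4 : Real.exp (-Real.exp (cP * K)) ≤ Real.exp (-(cc * K)) := by
    refine le_trans F.num_E (Real.exp_le_exp.2 ?_)
    have := mul_le_mul_of_nonneg_right hc3 hKp
    linarith
  have n5 : Real.exp (-(cT * D)) ≤ Real.exp (-(cc * 2 ^ (K - b))) := by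
    apply Real.exp_le_exp.2
    have e1 : cc * 2 ^ (K - b) ≤ cT / 256 * 2 ^ (K - b) :=
      mul_le_mul_of_nonneg_right hc1 (by positivity)
    have e2 : cT * (2 ^ (K - b) / 256) ≤ cT * D := mul_le_mul_of_nonneg_left hD3 hcT.le
    linarith
  set x : ℝ := (1 / 16) ^ v with hx
  set y : ℝ := Real.exp (-(cc * 2 ^ (K - b))) with hy
  set z : ℝ := Real.exp (-(cc * K)) with hz
  have hx0 : 0 < x := by rw [hx]; positivity
  have hy0 : 0 < y := Real.exp_pos _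
  have hz0 : 0 < z := Real.exp_pos _
  have m1 : CR * Real.exp (-Real.exp (cR * K)) ≤ CR * z := mul_le_mul_of_nonneg_left n3 hCR.le
  have m2 : CT * Real.exp (-(cT * D)) ≤ CT * y := mul_le_mul_of_nonneg_left n5 hCT.le
  have m3 : CP * (16 ^ v * β + Real.exp (-(10 * (v : ℝ))) + Real.exp (-Real.exp (cP * K))) ≤
      CP * ((7 + CA) * x + x + z) :=
    mul_le_mul_of_nonneg_left (by linarith) hCP.le
  have m4 : CR * z + CT * y + CP * ((7 + CA) * x + x + z) ≤ CC * (x + y + z) := by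
    rw [hCC]
    have e0 : (0 : ℝ) < 16 ^ v0 := by positivity
    have e1 : CR * z ≤ CR * (x + y + z) := mul_le_mul_of_nonneg_left (by linarith) hCR.le
    have e2 : CT * y ≤ CT * (x + y + z) := mul_le_mul_of_nonneg_left (by linarith) hCT.le
    have e3 : CP * ((7 + CA) * x + x + z) ≤ CP * ((7 + CA + 1 + 1) * (x + y + z)) := by
      apply mul_le_mul_of_nonneg_left _ hCP.le
      nlinarith [mul_pos hCA hx0, mul_pos hCA hy0, mul_pos hCA hz0]
    have e4 : 0 ≤ 16 ^ v0 * (x + y + z) := by positivity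
    nlinarith
  linarith

end Pool.Agent.H3.NT
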