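import Pool.Agent.H84.NT.Targets5
import Pool.Agent.H17.INS.DER

/-!
# Fat near ties, part 1: dependence and Fubini
-/

open MeasureTheory ProbabilityTheory
open scoped ENNReal

namespace Pool.Agent.H3.NT.F

open Pool.Agent.H99.NS Pool.Agent.H22.LPP Pool.Agent.H95.INS Pool.Agent.H76.ND Pool.Agent.H95.ND
open Pool.Agent.H84.NT hiding lv two_lv
open Pool.Agent.H84.NT5
open Pool.Agent.H17.INS (near_congr)

/-! ### Congruence -/

theorem wt_dom {ω ω' : Env} {o e : Site} (h : ∀ x ∈ dom o e, ω x = ω' x) {g : ℤ → ℤ}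
    (hg : Conn o e g) {s t : ℤ} (hs : o.1 ≤ s) (ht : t ≤ e.1) : wt ω s t g = wt ω' s t g := by
  refine wt_congr ?_
  intro r hr1 hr2
  exact h _ ⟨lt_of_le_of_lt hs hr1, (hg.left (le_trans hr2 ht)).reach (le_trans hs hr1.le),
    (hg.right (le_trans hs hr1.le)).reach (le_trans hr2 ht)⟩

theorem geod_congr {ω ω' : Env} {o e : Site} (h : ∀ x ∈ dom o e, ω x = ω' x) (g : ℤ → ℤ)
    (hg : Geod ω o e g) : Geod ω' o e g := by
  obtain ⟨h1, h2⟩ := hg
  refine ⟨h1, ?_⟩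
  rw [← T_congr h, ← h2]
  exact (wt_dom h h1 le_rfl le_rfl).symm

theorem lam_congr {ω ω' : Env} {o e : Site} (h : ∀ x ∈ dom o e, ω x = ω' x) :
    Lam ω o e = Lam ω' o e := by
  funext r
  unfold Lam
  congr 1
  ext y
  constructor
  · rintro ⟨g, hg, hy⟩
    exact ⟨g, geod_congr h g hg, hy⟩
  · rintro ⟨g, hg, hy⟩
    exact ⟨g, geod_congr (fun x hx => (h x hx).symm) g hg, hy⟩

theorem LK_congr {ω ω' : Env} {K : ℕ} (h : ∀ x ∈ dom (oK K) (eK K), ω x = ω' x) :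
    LK K ω = LK K ω' := by
  funext t
  unfold LK
  rw [lam_congr h]

theorem RGk_congr {ω ω' : Env} {K : ℕ} (h : ∀ x ∈ dom (oK K) (eK K), ω x = ω' x)
    (hR : RGk K ω) : RGk K ω' := by
  intro a h1 h2 g hg
  exact hR a h1 h2 g ((near_congr h _ _).2 hg)

theorem TOPk_congr {ω ω' : Env} {K : ℕ} {D : ℝ} (h : ∀ x ∈ dom (oK K) (eK K), ω x = ω' x)
    (hR : TOPk D K ω) : TOPk D K ω' := by
  intro g hg
  exact hR g ((near_congr h _ _).2 hg)

/-! ### The optimum over the paths which avoid a set -/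

/-- Optimal weight of the paths avoiding `B`. -/
noncomputable def avo (B : Set Site) (o e : Site) (ω : Env) : ℝ :=
  sSup {x | ∃ g, Conn o e g ∧ (∀ r, o.1 < r → r ≤ e.1 → (r, g r) ∉ B) ∧ x = wt ω o.1 e.1 g}

theorem avo_congr {B : Set Site} {o e : Site} {ω ω' : Env}
    (h : ∀ x ∈ dom o e, x ∉ B → ω x = ω' x) : avo B o e ω = avo B o e ω' := by
  have key : ∀ g, Conn o e g → (∀ r, o.1 < r → r ≤ e.1 → (r, g r) ∉ B) →
      wt ω o.1 e.1 g = wt ω' o.1 e.1 g := by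
    intro g hg hB
    refine wt_congr ?_
    intro r hr1 hr2
    exact h _ ⟨hr1, (hg.left hr2).reach hr1.le, (hg.right hr1.le).reach hr2⟩ (hB r hr1 hr2)
  unfold avo
  congr 1
  ext x
  constructor
  · rintro ⟨g, hg, hB, rfl⟩
    exact ⟨g, hg, hB, key g hg hB⟩
  · rintro ⟨g, hg, hB, rfl⟩
    exact ⟨g, hg, hB, (key g hg hB).symm⟩

theorem avo_le {B : Set Site} {o e : Site} {ω : Env} (hoe : o.1 ≤ e.1) :
    avo B o e ω ≤ T ω o e := by
  refine Real.sSup_le ?_ (T_nonneg _ _ _)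
  rintro x ⟨g, hg, _, rfl⟩
  exact le_T ω hoe hg

theorem le_avo {B : Set Site} {o e : Site} {ω : Env} (hoe : o.1 ≤ e.1) {g : ℤ → ℤ}
    (hg : Conn o e g) (hB : ∀ r, o.1 < r → r ≤ e.1 → (r, g r) ∉ B) :
    wt ω o.1 e.1 g ≤ avo B o e ω := by
  refine le_csSup ⟨T ω o e, ?_⟩ ⟨g, hg, hB, rfl⟩
  rintro x ⟨g', hg', _, rfl⟩
  exact le_T ω hoe hg'

/-! ### Fubini -/

theorem splice_splice {B Q : Set Site} (hBQ : B ⊆ Q) (ω1 ω' out : Env) :
    splice Q (splice B ω1 ω') out = splice B ω1 (splice Q ω' out) := by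
  funext x
  by_cases h1 : x ∈ B
  · rw [splice_of_mem _ _ (hBQ h1), splice_of_mem _ _ h1, splice_of_mem _ _ h1]
  · rw [splice_of_not_mem ω1 _ h1]
    by_cases h2 : x ∈ Q
    · rw [splice_of_mem _ _ h2, splice_of_mem _ _ h2, splice_of_not_mem _ _ h1]
    · rw [splice_of_not_mem _ _ h2, splice_of_not_mem _ _ h2]

theorem fub {q : ℝ} {B Q S : Set Site} (hBQ : B ⊆ Q) (hS : S.Finite) {F : Env → Prop}
    (h_FIM : T_FIM) (hF : DepOn S F) {c : ℝ}
    (h : ∀ out, (PE q).real {ω | F (splice B ω out)} ≤ c) (out : Env) :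
    PE q {ω' | F (splice Q ω' out)} ≤ ENNReal.ofReal c := by
  have hG : DepOn S (fun ω' => F (splice Q ω' out)) := by
    intro ω ω' hw
    apply hF
    intro x hx
    by_cases h2 : x ∈ Q
    · rw [splice_of_mem _ _ h2, splice_of_mem _ _ h2]; exact hw x hx
    · rw [splice_of_not_mem _ _ h2, splice_of_not_mem _ _ h2]
  have mG : MeasurableSet {ω' | F (splice Q ω' out)} := h_FIM S _ hS hG
  have h1 := (mp_splice q B).measure_preimage mG.nullMeasurableSet
  have m2 : MeasurableSet ((fun p : Env × Env => splice B p.1 p.2) ⁻¹'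
      {ω' | F (splice Q ω' out)}) := (measurable_splice B) mG
  rw [← h1, Measure.prod_apply_symm m2]
  have h2 : ∀ ω' : Env, PE q ((fun x => (x, ω')) ⁻¹' ((fun p : Env × Env => splice B p.1 p.2) ⁻¹'
      {ω' | F (splice Q ω' out)})) ≤ ENNReal.ofReal c := by
    intro ω'
    have h3 := h (splice Q ω' out)
    have h4 : ((fun x => (x, ω')) ⁻¹' ((fun p : Env × Env => splice B p.1 p.2) ⁻¹'
      {ω' | F (splice Q ω' out)})) = {ω | F (splice B ω (splice Q ω' out))} := by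
      ext ω1
      simp only [Set.mem_preimage, Set.mem_ofPred_eq]
      rw [splice_splice hBQ]
    rw [h4, ← ofReal_measureReal]
    exact ENNReal.ofReal_le_ofReal h3
  calc _ ≤ ∫⁻ _, ENNReal.ofReal c ∂(PE q) := lintegral_mono h2
    _ = ENNReal.ofReal c := by rw [lintegral_const, measure_univ, mul_one]

end Pool.Agent.H3.NT.F
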