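import Pool.Agent.H3.NT.FTNa

/-!
# Fat near ties, part 2: the event of the anti-concentration estimate
-/

open MeasureTheory ProbabilityTheory
open scoped ENNReal

namespace Pool.Agent.H3.NT.F

open Pool.Agent.H99.NS Pool.Agent.H22.LPP Pool.Agent.H95.INS Pool.Agent.H76.ND Pool.Agent.H95.ND
open Pool.Agent.H84.NT hiding lv two_lv
open Pool.Agent.H84.NT5
open Pool.Agent.H17.INS (near_congr)

/-- The event of the anti-concentration estimate with the optimum over the paths avoiding the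
box. -/
def FF (q K1 : ℝ) (Cd : ℤ) (k n : ℕ) (W t0 c : ℤ) (o e : Site) (g : ℝ) (ω : Env) : Prop :=
  ACev q K1 Cd k n W t0 c o e (avo (bx t0 c n k W) o e ω) g ω

theorem fine_congr {q K1 : ℝ} {Cd : ℤ} {k : ℕ} {ω ω' : Env} {s : ℤ} {g : ℤ → ℤ} {o e : Site}
    (h : ∀ x ∈ dom o e, ω x = ω' x) (hg : Conn o e g) (hs : o.1 ≤ s) (ht : s + 64 ^ k ≤ e.1)
    (hF : Fine q K1 Cd k ω s g) : Fine q K1 Cd k ω' s g := by
  refine ⟨hF.1, ?_⟩
  rw [← wt_dom h hg hs ht]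
  exact hF.2

theorem ACev_mp (h_LAM : B_LAM) {q K1 : ℝ} {Cd : ℤ} {k n : ℕ} {W t0 c : ℤ} {o e : Site}
    {b0 g : ℝ} {ω ω' : Env} (hr : Reach o e) (h1 : o.1 ≤ t0) (h2 : t0 + n * 64 ^ k ≤ e.1)
    (h : ∀ x ∈ dom o e, ω x = ω' x) (hA : ACev q K1 Cd k n W t0 c o e b0 g ω) :
    ACev q K1 Cd k n W t0 c o e b0 g ω' := by
  classical
  have hL := lam_congr h
  have hT := T_congr h
  obtain ⟨⟨hc, _⟩, _⟩ := h_LAM ω o e hr
  refine ⟨?_, ?_, ?_, ?_⟩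
  · rw [← hT]; exact hA.1
  · rw [← hT]; exact hA.2.1
  · rw [← hL]; exact hA.2.2.1
  · refine le_trans hA.2.2.2 ?_
    refine Nat.mul_le_mul_left 2 (Finset.card_le_card ?_)
    intro l hl
    rw [Finset.mem_filter, Finset.mem_range] at hl ⊢
    refine ⟨hl.1, ?_⟩
    rw [← hL]
    have h3 : (0 : ℤ) < 64 ^ k := by positivity
    have h4 : (l : ℤ) + 1 ≤ n := by exact_mod_cast hl.1
    refine fine_congr h hc ?_ ?_ hl.2
    · have : (0 : ℤ) ≤ l * 64 ^ k := by positivity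
      linarith
    · nlinarith

theorem depOn_FF (h_LAM : B_LAM) {q K1 : ℝ} {Cd : ℤ} {k n : ℕ} {W t0 c : ℤ} {o e : Site}
    {g : ℝ} (hr : Reach o e) (h1 : o.1 ≤ t0) (h2 : t0 + n * 64 ^ k ≤ e.1) :
    DepOn (dom o e) (FF q K1 Cd k n W t0 c o e g) := by
  intro ω ω' h
  have e1 : avo (bx t0 c n k W) o e ω = avo (bx t0 c n k W) o e ω' :=
    avo_congr fun x hx _ => h x hx
  unfold FF
  rw [e1]
  exact propext ⟨ACev_mp h_LAM hr h1 h2 h, ACev_mp h_LAM hr h1 h2 fun x hx => (h x hx).symm⟩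

/-- Probability of the event. -/
theorem prob_FF (h_LAM : B_LAM) (h_FIM : T_FIM) {q K1 : ℝ} {Cd : ℤ} {k n : ℕ} {W t0 c : ℤ}
    {o e : Site} {g C : ℝ} (hr : Reach o e) (h1 : o.1 ≤ t0) (h2 : t0 + n * 64 ^ k ≤ e.1)
    {Q : Set Site} (hQ : bx t0 c n k W ⊆ Q)
    (hAC : ∀ (b0 : ℝ) (out : Env), (PE q).real {ω | ACev q K1 Cd k n W t0 c o e b0 g
      (splice (bx t0 c n k W) ω out)} ≤ C) (out : Env) :
    PE q {ω' | FF q K1 Cd k n W t0 c o e g (splice Q ω' out)} ≤ ENNReal.ofReal C := by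
  refine fub hQ (dom_finite o e) h_FIM (depOn_FF h_LAM hr h1 h2) ?_ out
  intro out'
  have h3 := hAC (avo (bx t0 c n k W) o e out') out'
  refine le_trans (le_of_eq ?_) h3
  congr 1
  ext ω
  simp only [Set.mem_ofPred_eq]
  unfold FF
  have e1 : avo (bx t0 c n k W) o e (splice (bx t0 c n k W) ω out') =
      avo (bx t0 c n k W) o e out' :=
    avo_congr fun x _ hx => splice_of_not_mem _ _ hx
  rw [e1]

/-! ### The deterministic step -/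

theorem lvp (K : ℕ) : 0 < lv K := by unfold lv; positivity

theorem two_lv' {k : ℕ} (hk : 1 ≤ k) : 2 * lv k = 64 ^ k := by
  obtain ⟨m, rfl⟩ : ∃ m, k = m + 1 := ⟨k - 1, by omega⟩
  simp only [lv, Nat.add_sub_cancel]
  ring

theorem reachK (K : ℕ) : Reach (oK K) (eK K) := by
  have h0 := lvp K
  unfold oK eK
  refine ⟨?_, ?_⟩
  · simp only [sub_self, abs_zero]; omega
  · simp only [sub_self, add_zero]; exact ⟨lv K, by ring⟩

open Classical in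
/-- The deterministic step. -/
theorem det (h_LAM : B_LAM) {q κ K1 CG Cd : ℝ} {Cf X W xc t w : ℤ} {K k3 v : ℕ} {ω : Env}
    (hBLK : ∀ (ω : Env) (g : ℤ → ℤ) (p s0 : ℤ) (b n : ℕ), IsPath s0 (s0 + n * 64 ^ (b + 1)) g →
      mu q * (n * 64 ^ (b + 1)) - n * 4 ^ b ≤ wt ω s0 (s0 + n * 64 ^ (b + 1)) g →
      GRs q p s0 b n ω g ≤ CG * n →
      ∑ l ∈ Finset.range n, ((g (sb s0 b l + 64 ^ (b + 1)) - g (sb s0 b l) : ℤ) : ℝ) ^ 2 ≤
        Cd * n * 256 ^ b ∧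
      ∑ l ∈ Finset.range n, ((dwi p b (sb s0 b l) g : ℤ) : ℝ) ^ 2 ≤ Cd * n ∧
      ∑ l ∈ Finset.range n, exl q b ω (sb s0 b l) g ≤ Cd * n)
    (hFIC : ∀ (ω : Env) (g : ℤ → ℤ) (s0 : ℤ) (b n : ℕ),
      ∑ l ∈ Finset.range n, ((g (sb s0 b l + 64 ^ (b + 1)) - g (sb s0 b l) : ℤ) : ℝ) ^ 2 ≤
        Cd * n * 256 ^ b →
      ∑ l ∈ Finset.range n, exl q b ω (sb s0 b l) g ≤ Cd * n →
      n ≤ 2 * ((Finset.range n).filter
        (fun l : ℕ => Fine q K1 Cf (b + 1) ω (s0 + l * 64 ^ (b + 1)) g)).card)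
    (hK1 : 1 ≤ K1) (hW : W * 16 = 4 * 16 ^ (20 * v)) (hxc : xc = w * 16 ^ (k3 + 20 * v) + t % 2)
    (hv : 1 ≤ v) (hκ0 : 0 ≤ κ) (hκ1 : 64 * κ ≤ 16 ^ (4 * v))
    (hκ2 : κ * 4 ^ (16 * v + 1) ≤ 64 ^ (16 * v))
    (ht : |t| + lv (k3 + 1 + 16 * v) ≤ lv K)
    (hO : OReg q κ X (k3 + 1 + 16 * v) (k3 + 20 * v) K t ω)
    (hL : LK K ω t ∈ win (k3 + 20 * v) w) (p : ℤ)
    (hG : ¬ InG q CG p (t - lv (k3 + 1 + 16 * v)) k3 (64 ^ (16 * v)) xc
      (2 * 16 ^ (k3 + 20 * v)) ω) {γ : ℤ → ℤ}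
    (hγ : Near ω (oK K) (eK K) (4 ^ (k3 + 1) / 4) γ)
    (hγ2 : (16 : ℤ) ^ (k3 + 1 + 20 * v) ≤ |γ t - LK K ω t|) :
    FF q K1 Cf (k3 + 1) (64 ^ (16 * v)) W (t - lv (k3 + 1 + 16 * v)) xc (oK K) (eK K)
      (K1 / 4 * 4 ^ (k3 + 1)) ω := by
  classical
  have hb1 : 1 ≤ k3 + 1 + 16 * v := by omega
  have hlv := two_lv' hb1
  have hlp := lvp (k3 + 1 + 16 * v)
  have hr := reachK K
  obtain ⟨⟨hLc, hLT⟩, hLl⟩ := h_LAM ω (oK K) (eK K) hr
  have hoK : (oK K).1 = -lv K := rfl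
  have heK : (eK K).1 = lv K := rfl
  have hle : (oK K).1 ≤ (eK K).1 := by rw [hoK, heK]; have := lvp K; omega
  -- lengths
  have hn : ((64 ^ (16 * v) : ℕ) : ℤ) * 64 ^ (k3 + 1) = 2 * lv (k3 + 1 + 16 * v) := by
    rw [hlv]; push_cast; ring
  have htp : -lv K ≤ t - lv (k3 + 1 + 16 * v) := by
    have := neg_abs_le t; omega
  have htq : t + lv (k3 + 1 + 16 * v) ≤ lv K := by
    have := le_abs_self t; omega
  set s0 := t - lv (k3 + 1 + 16 * v) with hs0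
  have hse : s0 + ((64 ^ (16 * v) : ℕ) : ℤ) * 64 ^ (k3 + 1) = t + lv (k3 + 1 + 16 * v) := by
    rw [hn, hs0]; ring
  -- the position of the geodesic at time `t`
  obtain ⟨hL1, hL2⟩ := hL
  have hp16 : (0 : ℤ) < 16 ^ (k3 + 20 * v) := by positivity
  have hmod : 0 ≤ t % 2 ∧ t % 2 ≤ 1 := by omega
  have hLx : |LK K ω t - xc| ≤ 16 ^ (k3 + 20 * v) := by
    rw [hxc, abs_le]
    constructor
    · have : (1 : ℤ) ≤ 16 ^ (k3 + 20 * v) := hp16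
      linarith [hmod.2]
    · linarith [hmod.1]
  -- near geodesics: the leftmost geodesic
  have hnear : Near ω (oK K) (eK K) (4 ^ (k3 + 1 + 16 * v)) (LK K ω) := by
    refine ⟨hLc, ?_⟩
    have : wt ω (oK K).1 (eK K).1 (LK K ω) = T ω (oK K) (eK K) := hLT
    rw [this]
    have : (0 : ℝ) < 4 ^ (k3 + 1 + 16 * v) := by positivity
    linarith
  have hLd := hO.d (LK K ω) t hnear (by simp only [sub_self, abs_zero]; exact hlp.le)
    (by simp only [sub_self, abs_zero]; positivity)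
  -- `κ 16^b1 ≤ 16^b / 64`
  have hκ3 : κ * 16 ^ (k3 + 1 + 16 * v) ≤ 16 ^ (k3 + 20 * v) / 4 := by
    have e1 : (16 : ℝ) ^ (k3 + 20 * v) / 4 =
        16 ^ (4 * v) / 64 * 16 ^ (k3 + 1 + 16 * v) := by
      rw [show k3 + 20 * v = k3 + 16 * v + 4 * v by ring,
        show k3 + 1 + 16 * v = (k3 + 16 * v) + 1 by ring, pow_add (16 : ℝ) (k3 + 16 * v) (4 * v),
        pow_succ]
      ring
    rw [e1]
    have : (0 : ℝ) < 16 ^ (k3 + 1 + 16 * v) := by positivity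
    apply mul_le_mul_of_nonneg_right _ this.le
    linarith
  have hLr : ∀ r, |r - t| ≤ lv (k3 + 1 + 16 * v) →
      |LK K ω r - xc| ≤ 2 * 16 ^ (k3 + 20 * v) := by
    intro r hr'
    have h1 := hLd.1 r hr'
    have h2 : |((LK K ω r - LK K ω t : ℤ) : ℝ)| ≤ 16 ^ (k3 + 20 * v) := by
      have : (0 : ℝ) < 16 ^ (k3 + 20 * v) := by positivity
      linarith
    have h3 : |LK K ω r - LK K ω t| ≤ 16 ^ (k3 + 20 * v) := by exact_mod_cast h2
    have h4 := abs_add_le (LK K ω r - LK K ω t) (LK K ω t - xc)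
    rw [sub_add_sub_cancel] at h4
    linarith
  have hrange : ∀ r, s0 ≤ r → r ≤ s0 + ((64 ^ (16 * v) : ℕ) : ℤ) * 64 ^ (k3 + 1) →
      |r - t| ≤ lv (k3 + 1 + 16 * v) := by
    intro r h1 h2
    rw [hse] at h2
    rw [abs_le]
    constructor <;> omega
  have hpath : IsPath s0 (s0 + ((64 ^ (16 * v) : ℕ) : ℤ) * 64 ^ (k3 + 1)) (LK K ω) := by
    intro r h1 h2
    rw [hse] at h2
    exact hLc.1 r (by rw [hoK]; omega) (by rw [heK]; omega)
  -- the blocks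
  have hGR : GRs q p s0 k3 (64 ^ (16 * v)) ω (LK K ω) ≤ CG * ((64 ^ (16 * v) : ℕ) : ℝ) := by
    by_contra hcon
    apply hG
    exact ⟨LK K ω, hpath, fun r h1 h2 => hLr r (hrange r h1 h2), (not_le.1 hcon).le⟩
  have hwt : mu q * (((64 ^ (16 * v) : ℕ) : ℝ) * 64 ^ (k3 + 1)) -
      ((64 ^ (16 * v) : ℕ) : ℝ) * 4 ^ k3 ≤
      wt ω s0 (s0 + ((64 ^ (16 * v) : ℕ) : ℤ) * 64 ^ (k3 + 1)) (LK K ω) := by
    rw [hse]
    refine le_trans ?_ hLd.2.2.2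
    have e1 : (64 : ℝ) ^ (k3 + 1 + 16 * v) = ((64 ^ (16 * v) : ℕ) : ℝ) * 64 ^ (k3 + 1) := by
      push_cast; ring
    have e2 : κ * 4 ^ (k3 + 1 + 16 * v) ≤ ((64 ^ (16 * v) : ℕ) : ℝ) * 4 ^ k3 := by
      push_cast
      have e3 : κ * 4 ^ (k3 + 1 + 16 * v) = κ * 4 ^ (16 * v + 1) * 4 ^ k3 := by ring
      rw [e3]
      exact mul_le_mul_of_nonneg_right hκ2 (by positivity)
    rw [e1]
    linarith
  obtain ⟨hB1, _, hB3⟩ := hBLK ω (LK K ω) p s0 k3 (64 ^ (16 * v)) hpath hwt hGR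
  have hfine := hFIC ω (LK K ω) s0 k3 (64 ^ (16 * v)) hB1 hB3
  -- the path `γ` avoids the box
  have hγn : Near ω (oK K) (eK K) (4 ^ (k3 + 1 + 16 * v)) γ := by
    refine ⟨hγ.1, le_trans ?_ hγ.2⟩
    have h1 : (4 : ℝ) ^ (k3 + 1) ≤ 4 ^ (k3 + 1 + 16 * v) :=
      pow_le_pow_right₀ (by norm_num) (by omega)
    have h2 : (0 : ℝ) < 4 ^ (k3 + 1) := by positivity
    linarith
  have hWW : W * 16 ^ (k3 + 1) = 4 * 16 ^ (k3 + 20 * v) := by
    have : W * 16 ^ (k3 + 1) = (W * 16) * 16 ^ k3 := by ring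
    rw [this, hW]; ring
  have havoid : ∀ r, (oK K).1 < r → r ≤ (eK K).1 →
      (r, γ r) ∉ bx s0 xc (64 ^ (16 * v)) (k3 + 1) W := by
    rintro r hr1 hr2 ⟨h1, h2, h3⟩
    simp only at h1 h2 h3
    rw [hWW] at h3
    have h4 := hrange r h1.le h2
    have h5 : |γ r - LK K ω t| ≤ 5 * 16 ^ (k3 + 20 * v) := by
      have h6 := abs_add_le (γ r - xc) (xc - LK K ω t)
      rw [sub_add_sub_cancel, abs_sub_comm xc] at h6
      linarith
    have h7 := hO.d γ r hγn h4 (by linarith)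
    have h8 := h7.1 t (by simp only [sub_self, abs_zero]; exact hlp.le)
    have h9 : |((γ t - γ r : ℤ) : ℝ)| ≤ 16 ^ (k3 + 20 * v) := by
      have : (0 : ℝ) < 16 ^ (k3 + 20 * v) := by positivity
      linarith
    have h10 : |γ t - γ r| ≤ 16 ^ (k3 + 20 * v) := by exact_mod_cast h9
    have h11 := abs_add_le (γ t - γ r) (γ r - LK K ω t)
    rw [sub_add_sub_cancel] at h11
    have h12 : (16 : ℤ) ^ (k3 + 1 + 20 * v) = 16 * 16 ^ (k3 + 20 * v) := by ring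
    rw [h12] at hγ2
    linarith
  refine ⟨avo_le hle, ?_, ?_, ?_⟩
  · have h1 := le_avo (ω := ω) hle hγ.1 havoid
    have h2 := hγ.2
    have h3 : (0 : ℝ) < 4 ^ (k3 + 1) := by positivity
    nlinarith
  · intro r h1 h2
    rw [hWW]
    have := hLr r (hrange r h1 h2)
    unfold LK at this
    linarith
  · exact hfine

end Pool.Agent.H3.NT.F
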