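import Pool.Agent.H3.NT.FTNb

/-!
# Fat near ties, part 3: one window
-/

open MeasureTheory ProbabilityTheory
open scoped ENNReal

namespace Pool.Agent.H3.NT.F

open Pool.Agent.H99.NS Pool.Agent.H22.LPP Pool.Agent.H95.INS Pool.Agent.H76.ND Pool.Agent.H95.ND
open Pool.Agent.H84.NT hiding lv two_lv
open Pool.Agent.H84.NT5
open Pool.Agent.H17.INS (near_congr)

/-- The bad event of the window `w`. -/
def BD (K k3 v : ℕ) (D : ℝ) (t w : ℤ) : Set Env :=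
  {ω | LK K ω t ∈ win (k3 + 20 * v) w ∧ RGk K ω ∧ TOPk D K ω ∧
    ∃ γ, Near ω (oK K) (eK K) (4 ^ (k3 + 1) / 4) γ ∧
      (16 : ℤ) ^ (k3 + 1 + 20 * v) ≤ |γ t - LK K ω t|}

theorem BD_mp {K k3 v : ℕ} {D : ℝ} {t w : ℤ} {ω ω' : Env}
    (h : ∀ x ∈ dom (oK K) (eK K), ω x = ω' x) (hB : ω ∈ BD K k3 v D t w) :
    ω' ∈ BD K k3 v D t w := by
  obtain ⟨h1, h2, h3, γ, h4, h5⟩ := hB
  have hL := LK_congr h
  refine ⟨?_, RGk_congr h h2, TOPk_congr h h3, γ, (near_congr h _ _).1 h4, ?_⟩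
  · rw [← hL]; exact h1
  · rw [← hL]; exact h5

theorem meas_BD (h_FIM : T_FIM) (K k3 v : ℕ) (D : ℝ) (t w : ℤ) :
    MeasurableSet (BD K k3 v D t w) := by
  have h : DepOn (dom (oK K) (eK K)) (fun ω => ω ∈ BD K k3 v D t w) := by
    intro ω ω' h
    exact propext ⟨BD_mp h, BD_mp fun x hx => (h x hx).symm⟩
  exact h_FIM (dom (oK K) (eK K)) (fun ω => ω ∈ BD K k3 v D t w) (dom_finite _ _) h

theorem mem_box {c : Cst} {Xc t w : ℤ} {k a1 : ℕ} {x : Site} (h1 : -lv k < x.1 - t)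
    (h2 : x.1 - t ≤ lv k) (h3 : |x.2 - (w * 16 ^ a1 + t % 2)| < c.A * 16 ^ k) :
    x ∈ BxAt (dk c Xc k) (zc t a1 w) := by
  show x - zc t a1 w ∈ Bx (dk c Xc k)
  unfold Bx dk dat zc
  simp only [Set.mem_ofPred_eq, Prod.fst_sub, Prod.snd_sub]
  unfold lv at h1 h2
  refine ⟨?_, ?_, h3⟩
  · linarith
  · linarith

/-- Probability of the bad event of one window. -/
theorem window (h_LAM : B_LAM) (h_FIM : T_FIM) (c : Cst) {κ K1 CG Cd C2 : ℝ} {Cf W t w : ℤ}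
    {K k3 v : ℕ} {D : ℝ} {Xc : ℤ}
    (hBLK : ∀ (ω : Env) (g : ℤ → ℤ) (p s0 : ℤ) (b n : ℕ), IsPath s0 (s0 + n * 64 ^ (b + 1)) g →
      mu c.q * (n * 64 ^ (b + 1)) - n * 4 ^ b ≤ wt ω s0 (s0 + n * 64 ^ (b + 1)) g →
      GRs c.q p s0 b n ω g ≤ CG * n →
      ∑ l ∈ Finset.range n, ((g (sb s0 b l + 64 ^ (b + 1)) - g (sb s0 b l) : ℤ) : ℝ) ^ 2 ≤
        Cd * n * 256 ^ b ∧
      ∑ l ∈ Finset.range n, ((dwi p b (sb s0 b l) g : ℤ) : ℝ) ^ 2 ≤ Cd * n ∧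
      ∑ l ∈ Finset.range n, exl c.q b ω (sb s0 b l) g ≤ Cd * n)
    (hFIC : ∀ (ω : Env) (g : ℤ → ℤ) (s0 : ℤ) (b n : ℕ),
      ∑ l ∈ Finset.range n, ((g (sb s0 b l + 64 ^ (b + 1)) - g (sb s0 b l) : ℤ) : ℝ) ^ 2 ≤
        Cd * n * 256 ^ b →
      ∑ l ∈ Finset.range n, exl c.q b ω (sb s0 b l) g ≤ Cd * n →
      n ≤ 2 * (open Classical in ((Finset.range n).filter
        (fun l : ℕ => Fine c.q K1 Cf (b + 1) ω (s0 + l * 64 ^ (b + 1)) g)).card))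
    (hING : ∀ (p s0 : ℤ) (b n : ℕ) (xc V : ℤ), 0 ≤ V →
      (PE c.q).real {ω | InG c.q CG p s0 b n xc V ω} ≤
        (2 * V / 16 ^ b + 3) * Real.exp (-(n : ℝ)) ∧
      DepOn {x : Site | s0 < x.1 ∧ x.1 ≤ s0 + n * 64 ^ (b + 1) ∧ |x.2 - xc| ≤ V}
        (InG c.q CG p s0 b n xc V) ∧
      {x : Site | s0 < x.1 ∧ x.1 ≤ s0 + n * 64 ^ (b + 1) ∧ |x.2 - xc| ≤ V}.Finite)
    (hA : 200 ≤ c.A) (hK1 : 1 ≤ K1) (hW : W * 16 = 4 * 16 ^ (20 * v))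
    (hv : 1 ≤ v) (hκ0 : 0 ≤ κ) (hκ1 : 64 * κ ≤ 16 ^ (4 * v))
    (hκ2 : κ * 4 ^ (16 * v + 1) ≤ 64 ^ (16 * v))
    (ht : |t| ≤ 19 * 64 ^ (K - 1)) (hK : k3 + 22 * v + 2 ≤ K)
    {k : ℕ} (hk : k3 + 20 * v ≤ k)
    (hOR : ∀ ω : Env, goodAt c Xc (k3 + 1 + 16 * v) (K - 2) k (zc t (k3 + 20 * v) w) ω →
      RGk K ω → TOPk D K ω → LK K ω t ∈ win (k3 + 20 * v) w →
      ∃ X, OReg c.q κ X (k3 + 1 + 16 * v) (k3 + 20 * v) K t ω)
    (hAC : ∀ (t0 xc : ℤ) (b0 : ℝ) (out : Env), (oK K).1 ≤ t0 →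
      t0 + ((64 ^ (16 * v) : ℕ) : ℤ) * 64 ^ (k3 + 1) ≤ (eK K).1 →
      Even ((oK K).1 + (oK K).2 + t0 + xc) →
      (PE c.q).real {ω | ACev c.q K1 Cf (k3 + 1) (64 ^ (16 * v)) W t0 xc (oK K) (eK K) b0
        (K1 / 4 * 4 ^ (k3 + 1)) (splice (bx t0 xc (64 ^ (16 * v)) (k3 + 1) W) ω out)} ≤ C2)
    (out : Env) :
    PE c.q {ω | splice (BxAt (dk c Xc k) (zc t (k3 + 20 * v) w)) ω out ∈ BD K k3 v D t w ∧
      goodAt c Xc (k3 + 1 + 16 * v) (K - 2) k (zc t (k3 + 20 * v) w)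
        (splice (BxAt (dk c Xc k) (zc t (k3 + 20 * v) w)) ω out)} ≤
      ENNReal.ofReal ((4 * 16 ^ (20 * v) + 3) * Real.exp (-(64 ^ (16 * v))) + C2) := by
  classical
  set Q := BxAt (dk c Xc k) (zc t (k3 + 20 * v) w) with hQ
  set xc := w * 16 ^ (k3 + 20 * v) + t % 2 with hxc
  set s0 := t - lv (k3 + 1 + 16 * v) with hs0
  have hb1 : 1 ≤ k3 + 1 + 16 * v := by omega
  have hlv := two_lv' hb1
  have hlp := lvp (k3 + 1 + 16 * v)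
  have hn : ((64 ^ (16 * v) : ℕ) : ℤ) * 64 ^ (k3 + 1) = 2 * lv (k3 + 1 + 16 * v) := by
    rw [hlv]; push_cast; ring
  have hse : s0 + ((64 ^ (16 * v) : ℕ) : ℤ) * 64 ^ (k3 + 1) = t + lv (k3 + 1 + 16 * v) := by
    rw [hn, hs0]; ring
  have hlvk : lv (k3 + 1 + 16 * v) ≤ lv k := by
    unfold lv
    have : (64 : ℤ) ^ (k3 + 1 + 16 * v - 1) ≤ 64 ^ (k - 1) :=
      pow_le_pow_right₀ (by norm_num) (by omega)
    linarith
  have htK : |t| + lv (k3 + 1 + 16 * v) ≤ lv K := by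
    have h1 : lv (k3 + 1 + 16 * v) ≤ 64 ^ (K - 1) := by
      unfold lv
      have h2 : (64 : ℤ) ^ (k3 + 1 + 16 * v - 1 + 1) ≤ 64 ^ (K - 1) :=
        pow_le_pow_right₀ (by norm_num) (by omega)
      rw [pow_succ] at h2
      have h3 : (0 : ℤ) < 64 ^ (k3 + 1 + 16 * v - 1) := by positivity
      linarith
    have h4 : lv K = 32 * 64 ^ (K - 1) := rfl
    rw [h4]
    have : (0 : ℤ) < 64 ^ (K - 1) := by positivity
    linarith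
  have hp : (16 : ℤ) ^ (k3 + 20 * v) ≤ 16 ^ k := pow_le_pow_right₀ (by norm_num) hk
  have hp0 : (0 : ℤ) < 16 ^ (k3 + 20 * v) := by positivity
  have hWW : W * 16 ^ (k3 + 1) = 4 * 16 ^ (k3 + 20 * v) := by
    have : W * 16 ^ (k3 + 1) = (W * 16) * 16 ^ k3 := by ring
    rw [this, hW]; ring
  -- inclusions
  have hQ1 : bx s0 xc (64 ^ (16 * v)) (k3 + 1) W ⊆ Q := by
    rintro x ⟨h1, h2, h3⟩
    rw [hse] at h2
    rw [hWW] at h3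
    refine mem_box (by omega) (by omega) ?_
    refine lt_of_lt_of_le h3 ?_
    nlinarith
  have hQ2 : {x : Site | s0 < x.1 ∧ x.1 ≤ s0 + ((64 ^ (16 * v) : ℕ) : ℤ) * 64 ^ (k3 + 1) ∧
      |x.2 - xc| ≤ 2 * 16 ^ (k3 + 20 * v)} ⊆ Q := by
    rintro x ⟨h1, h2, h3⟩
    rw [hse] at h2
    refine mem_box (by omega) (by omega) ?_
    refine lt_of_le_of_lt h3 ?_
    nlinarith
  have hoK : (oK K).1 = -lv K := rfl
  have heK : (eK K).1 = lv K := rfl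
  have ho1 : (oK K).1 ≤ s0 := by
    rw [hoK]; have := neg_abs_le t; omega
  have he1 : s0 + ((64 ^ (16 * v) : ℕ) : ℤ) * 64 ^ (k3 + 1) ≤ (eK K).1 := by
    rw [heK, hse]; have := le_abs_self t; omega
  have hev : Even ((oK K).1 + (oK K).2 + s0 + xc) := by
    have h1 : (oK K).2 = 0 := rfl
    have h2 : Even (lv K) := by unfold lv; exact ⟨16 * 64 ^ (K - 1), by ring⟩
    have h3 : Even (lv (k3 + 1 + 16 * v)) := by
      unfold lv; exact ⟨16 * 64 ^ (k3 + 1 + 16 * v - 1), by ring⟩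
    have h4 : Even (w * 16 ^ (k3 + 20 * v)) := by
      obtain ⟨m, hm⟩ : ∃ m, k3 + 20 * v = m + 1 := ⟨k3 + 20 * v - 1, by omega⟩
      rw [hm]; exact ⟨w * 8 * 16 ^ m, by ring⟩
    have h5 : Even (t + t % 2) := ⟨(t + t % 2) / 2, by omega⟩
    rw [h1, hoK, hs0, hxc]
    have h6 : -lv K + 0 + (t - lv (k3 + 1 + 16 * v)) + (w * 16 ^ (k3 + 20 * v) + t % 2) =
        -lv K + -lv (k3 + 1 + 16 * v) + w * 16 ^ (k3 + 20 * v) + (t + t % 2) := by ring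
    rw [h6]
    exact ((h2.neg.add h3.neg).add h4).add h5
  -- the two parts
  have hsub : {ω | splice Q ω out ∈ BD K k3 v D t w ∧
      goodAt c Xc (k3 + 1 + 16 * v) (K - 2) k (zc t (k3 + 20 * v) w) (splice Q ω out)} ⊆
      {ω | InG c.q CG (t % 2) s0 k3 (64 ^ (16 * v)) xc (2 * 16 ^ (k3 + 20 * v)) ω} ∪
      {ω | FF c.q K1 Cf (k3 + 1) (64 ^ (16 * v)) W s0 xc (oK K) (eK K)
        (K1 / 4 * 4 ^ (k3 + 1)) (splice Q ω out)} := by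
    rintro ω ⟨⟨h1, h2, h3, γ, h4, h5⟩, h6⟩
    obtain ⟨X, hO⟩ := hOR _ h6 h2 h3 h1
    by_cases hG : InG c.q CG (t % 2) s0 k3 (64 ^ (16 * v)) xc (2 * 16 ^ (k3 + 20 * v)) ω
    · exact Or.inl hG
    · right
      refine det h_LAM hBLK hFIC hK1 hW hxc hv hκ0 hκ1 hκ2 htK hO h1 (t % 2) ?_ h4 h5
      intro h7
      apply hG
      have h8 := (hING (t % 2) s0 k3 (64 ^ (16 * v)) xc (2 * 16 ^ (k3 + 20 * v))
        (by positivity)).2.1 ω (splice Q ω out)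
        (fun x hx => (splice_of_mem _ _ (hQ2 hx)).symm)
      rw [h8]
      exact h7
  refine le_trans (measure_mono hsub) ?_
  refine le_trans (measure_union_le _ _) ?_
  have hC2 : 0 ≤ C2 := le_trans measureReal_nonneg (hAC s0 xc 0 out ho1 he1 hev)
  rw [ENNReal.ofReal_add (by positivity) hC2]
  refine add_le_add ?_ ?_
  · have h1 := (hING (t % 2) s0 k3 (64 ^ (16 * v)) xc (2 * 16 ^ (k3 + 20 * v))
        (by positivity)).1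
    rw [← ofReal_measureReal]
    refine ENNReal.ofReal_le_ofReal (le_trans h1 (le_of_eq ?_))
    have h2 : 2 * (((2 * 16 ^ (k3 + 20 * v) : ℤ)) : ℝ) / 16 ^ k3 + 3 = 4 * 16 ^ (20 * v) + 3 := by
      push_cast
      rw [pow_add]
      field_simp
      ring
    rw [h2]
    push_cast
    rfl
  · exact prob_FF h_LAM h_FIM (reachK K) ho1 he1 hQ1
      (fun b0 out' => hAC s0 xc b0 out' ho1 he1 hev) out

end Pool.Agent.H3.NT.F
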