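import Pool.Agent.H84.NT.Targets5
import Pool.Agent.H97.NF.Pair

/-!
# PALM for one environment from PALM for pairs
-/

open MeasureTheory ProbabilityTheory
open scoped ENNReal

namespace Pool.Agent.H3.NT

open Pool.Agent.H99.NS Pool.Agent.H22.LPP Pool.Agent.H95.INS Pool.Agent.H76.ND Pool.Agent.H95.ND
open Pool.Agent.H84.NT hiding lv two_lv
open Pool.Agent.H84.NT5
open Pool.Agent.H97.NF (PEnv eA eB PN mp_eA pairLaw pairLaw_zero)

theorem eA_gl2 (Q : Set Site) (E : PEnv) (out : Env) :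
    eA (gl2 Q E out) = splice Q (eA E) out := by
  funext x
  unfold eA gl2 splice
  by_cases h : x ∈ Q
  · simp only [if_pos h]
  · simp only [if_neg h]

/-- The diagonal pair. -/
def dg (ω : Env) : PEnv := fun x => (ω x, ω x)

theorem measurable_dg : Measurable dg := by unfold dg; fun_prop

theorem PN_zero (q : ℝ) : PN q (fun _ => 0) = (PE q).map dg := by
  have h := Measure.infinitePi_map_pi (fun _ : Site => geo q) (f := fun _ => fun k : ℕ => (k, k))
    (fun _ => by fun_prop)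
  unfold Pool.Agent.H97.NF.PN PE
  have e : (fun (x : Site → ℕ) (i : Site) => ((x i), (x i))) = dg := rfl
  rw [e] at h
  rw [h]
  simp only [pairLaw_zero]

/-- Lower bound for arbitrary sets. -/
theorem PE_le_PN (q : ℝ) (S : Set Env) : PE q S ≤ PN q (fun _ => 0) (eA ⁻¹' S) := by
  rw [PN_zero]
  have h := Measure.le_map_apply (μ := PE q) measurable_dg.aemeasurable (eA ⁻¹' S)
  exact h

theorem PN_le_PE (q : ℝ) (S : Set Env) : PN q (fun _ => 0) (eA ⁻¹' S) ≤ PE q S := by
  have h := mp_eA q (fun _ => 0)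
  have h1 := Measure.le_map_apply (μ := PN q (fun _ => 0)) h.measurable.aemeasurable S
  rwa [h.map_eq] at h1

theorem LK_abs (h_LAM : B_LAM) (K : ℕ) (ω : Env) (j : ℤ) (hj : |j| ≤ lv K) :
    |LK K ω j| ≤ lv K := by
  have h0 : 0 ≤ lv K := by unfold lv; positivity
  have hr : Reach (oK K) (eK K) := by
    unfold oK eK
    refine ⟨?_, ?_⟩
    · simp only [sub_self, abs_zero]; omega
    · simp only [sub_self, add_zero]; exact ⟨lv K, by ring⟩
  obtain ⟨⟨h1, _⟩, _⟩ := h_LAM ω (oK K) (eK K) hr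
  have hj' := abs_le.1 hj
  have h2 : (oK K).1 ≤ j := hj'.1
  have h3 : j ≤ (eK K).1 := hj'.2
  have h4 := (path_lip h1.1 le_rfl h2 h3).1
  have h5 := (path_lip h1.1 h2 h3 le_rfl).1
  rw [h1.2.1] at h4
  rw [h1.2.2] at h5
  unfold LK
  simp only [oK, eK] at h4 h5 ⊢
  rw [abs_le] at h4 h5 ⊢
  constructor <;> omega

theorem pf_P1 (h_LAM : B_LAM) : T_P1 := by
  classical
  intro c M h
  obtain ⟨C, c', hC, hc', K₁, h⟩ := h
  refine ⟨C, c', hC, hc', max K₁ 1, ?_⟩
  intro K a a1 m hK1 hKa haa ham j hj Bad β hβ hB hP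
  have hK1' : K₁ ≤ K := le_trans (le_max_left _ _) hK1
  have hK0 : 1 ≤ K := le_trans (le_max_right _ _) hK1
  have hj' : |j| ≤ 24 * 64 ^ (K - 1) := by
    have : (0 : ℤ) ≤ 64 ^ (K - 1) := by positivity
    linarith
  set W : Finset ℤ := Finset.Icc (-(64 ^ K)) (64 ^ K) with hW
  have key := h K a a1 m hK1' hKa haa ham j hj' (fun _ _ => 0) (fun w => eA ⁻¹' (Bad w)) β hβ
    (fun w => Pool.Agent.H97.NF.measurable_eA (hB w)) (fun _ _ _ => rfl) ?_ W
  · refine le_trans ?_ key
    have hsub : {ω | ∃ w : ℤ, LK K ω j ∈ win a1 w ∧ ω ∈ Bad w} ⊆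
        ⋃ w ∈ W, {ω | LK K ω j ∈ win a1 w ∧ ω ∈ Bad w} := by
      rintro ω ⟨w, h1, h2⟩
      simp only [Set.mem_iUnion]
      refine ⟨w, ?_, h1, h2⟩
      have h3 : |LK K ω j| ≤ lv K := by
        apply LK_abs h_LAM
        refine le_trans hj ?_
        unfold lv
        have : (0 : ℤ) ≤ 64 ^ (K - 1) := by positivity
        linarith
      have h4 : lv K ≤ 64 ^ K := by
        unfold lv
        have : (64 : ℤ) ^ K = 64 * 64 ^ (K - 1) := by
          rw [← pow_succ']; congr 1; omega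
        rw [this]
        have : (0 : ℤ) ≤ 64 ^ (K - 1) := by positivity
        linarith
      obtain ⟨h5, h6⟩ := h1
      have h7 : (1 : ℤ) ≤ 16 ^ a1 := one_le_pow₀ (by norm_num)
      rw [abs_le] at h3
      rw [hW, Finset.mem_Icc]
      constructor
      · by_contra h8
        have h9 : w + 1 ≤ -(64 ^ K) := by omega
        have h10 : (w + 1) * 16 ^ a1 ≤ -(64 ^ K) * 1 := by
          have : (0 : ℤ) ≤ 64 ^ K := by positivity
          nlinarith
        omega
      · by_contra h8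
        have h9 : (64 : ℤ) ^ K + 1 ≤ w := by omega
        have h10 : (64 ^ K + 1) * 1 ≤ w * 16 ^ a1 := by
          have : (0 : ℤ) ≤ 64 ^ K := by positivity
          nlinarith
        omega
    refine le_trans (measure_mono hsub) ?_
    refine le_trans (measure_biUnion_finset_le _ _) ?_
    refine Finset.sum_le_sum fun w _ => ?_
    exact PE_le_PN c.q {ω | LK K ω j ∈ win a1 w ∧ ω ∈ Bad w}
  · intro w k hk1 hk2 out
    refine le_trans ?_ (hP w k hk1 hk2 out)
    refine le_trans (measure_mono ?_) (PN_le_PE c.q _)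
    rintro E ⟨h1, h2, _⟩
    simp only [Set.mem_preimage, Set.mem_ofPred_eq] at h1 ⊢
    rw [eA_gl2] at h1 h2
    exact ⟨h1, h2⟩

end Pool.Agent.H3.NT
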