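import Pool.Agent.H84.NT.Targets5

/-!
# Norms of the core in the environment shifted laterally
-/

open MeasureTheory ProbabilityTheory
open scoped ENNReal

namespace Pool.Agent.H3.NT

open Pool.Agent.H99.NS Pool.Agent.H22.LPP Pool.Agent.H95.INS Pool.Agent.H76.ND Pool.Agent.H95.ND
open Pool.Agent.H84.NT hiding lv two_lv
open Pool.Agent.H84.NT5

theorem al_shift {K0 D D' : ℝ} {a k : ℕ} (hK : 0 ≤ K0) (hak : a ≤ k) (hD : 0 ≤ D)
    (hD' : D' ≤ D + 8 * 16 ^ k) :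
    al K0 k a D' ≤ al (9 * K0 * (101 / 100) ^ (k - a)) a a D := by
  unfold al ds
  rw [max_eq_left hak, min_eq_right hak, max_self, min_self, Nat.sub_self, pow_zero, mul_one]
  have h1 : (0 : ℝ) < 16 ^ k := by positivity
  have h2 : (0 : ℝ) < 16 ^ a := by positivity
  have h3 : (16 : ℝ) ^ a ≤ 16 ^ k := pow_le_pow_right₀ (by norm_num) hak
  have h4 : D' / 16 ^ k ≤ D / 16 ^ a + 8 := by
    rw [div_le_iff₀ h1]
    have h5 : D / 16 ^ a * 16 ^ a = D := by field_simp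
    have h6 : 0 ≤ D / 16 ^ a := by positivity
    nlinarith [mul_le_mul_of_nonneg_left h3 h6]
  have h7 : 0 ≤ D / 16 ^ a := by positivity
  have h8 : 0 ≤ K0 * (101 / 100) ^ (k - a) * 4 ^ a := by positivity
  have h9 : K0 * (101 / 100) ^ (k - a) * 4 ^ a * (1 + D' / 16 ^ k) ≤
      K0 * (101 / 100) ^ (k - a) * 4 ^ a * (9 * (1 + D / 16 ^ a)) :=
    mul_le_mul_of_nonneg_left (by linarith) h8
  calc _ ≤ _ := h9
    _ = _ := by ring

/-- `P'` is the structure `P` shifted by `x0`. -/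
structure ShP (P P' : PS) (x0 : ℤ) : Prop where
  w : ∀ s t g, P'.W s t g = P.W s t (fun r => g r + x0)
  t : ∀ u v : Site, P'.TT u v = P.TT (u.1, u.2 + x0) (v.1, v.2 + x0)

theorem shP_fwd (ω : Env) (x0 : ℤ) : ShP (fwd ω) (fwd (shiftE (0, x0) ω)) x0 where
  w := by
    intro s t g
    show wt (shiftE (0, x0) ω) s t g = wt ω s t (fun r => g r + x0)
    rw [wt_shift]
    simp only [add_zero, sub_zero]
  t := by
    intro u v
    show T (shiftE (0, x0) ω) u v = _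
    rw [T_shift]
    congr 1
    · exact Prod.ext (by simp) (by simp)
    · exact Prod.ext (by simp) (by simp)

theorem shP_bwd (ω : Env) (x0 : ℤ) : ShP (bwd ω) (bwd (shiftE (0, x0) ω)) x0 where
  w := by
    intro s t g
    show wt (shiftE (0, x0) ω) (-t) (-s) (rvp g) = wt ω (-t) (-s) (rvp (fun r => g r + x0))
    rw [wt_shift]
    simp only [add_zero, sub_zero]
    rfl
  t := by
    intro u v
    show T (shiftE (0, x0) ω) (rev v) (rev u) = T ω (rev (v.1, v.2 + x0)) (rev (u.1, u.2 + x0))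
    rw [T_shift]
    congr 1
    · exact Prod.ext (by simp [rev]) (by simp [rev])
    · exact Prod.ext (by simp [rev]) (by simp [rev])

theorem abs_shift_le {x x0 : ℤ} {k : ℕ} (hx : |x0| ≤ 8 * 16 ^ k) :
    |((x + x0 : ℤ) : ℝ)| ≤ |(x : ℝ)| + 8 * 16 ^ k := by
  have h1 : |((x + x0 : ℤ) : ℝ)| ≤ |(x : ℝ)| + |(x0 : ℝ)| := by
    push_cast; exact abs_add_le _ _
  have h2 : |(x0 : ℝ)| ≤ 8 * 16 ^ k := by exact_mod_cast hx
  linarith

variable {P P' : PS} {x0 : ℤ} {q K0 : ℝ} {a k : ℕ} {s t : ℤ} {Xc Xc' : ℤ}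

theorem UL_shift (h : ShP P P' x0) (hK : 0 ≤ K0) (hak : a ≤ k) (hx : |x0| ≤ 8 * 16 ^ k)
    (hU : UL P q K0 k a s t) : UL P' q (9 * K0 * (101 / 100) ^ (k - a)) a a s t := by
  intro s' t' g h1 h2 h3 hg
  have h4 := hU s' t' (fun r => g r + x0) h1 h2 h3 (fun r hr1 hr2 => by
    have := hg r hr1 hr2; simp only; omega)
  rw [h.w]
  refine le_trans h4 ?_
  have h5 : sp q (64 ^ a / 1000) s' t' (fun r => g r + x0) = sp q (64 ^ a / 1000) s' t' g := by
    unfold sp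
    simp only [add_sub_add_right_eq_sub]
  rw [h5]
  have h6 : max |((g s' + x0 : ℤ) : ℝ)| |((g t' + x0 : ℤ) : ℝ)| ≤
      max |(g s' : ℝ)| |(g t' : ℝ)| + 8 * 16 ^ k := by
    apply max_le
    · exact le_trans (abs_shift_le hx) (by linarith [le_max_left |(g s' : ℝ)| |(g t' : ℝ)|])
    · exact le_trans (abs_shift_le hx) (by linarith [le_max_right |(g s' : ℝ)| |(g t' : ℝ)|])
  have h7 := al_shift (a := a) (k := k) hK hak
    (le_trans (abs_nonneg (g s' : ℝ)) (le_max_left |(g s' : ℝ)| |(g t' : ℝ)|)) h6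
  linarith

theorem pos_shift {x : ℤ} (hak : a ≤ k) (hX : 0 ≤ Xc') (hXX : Xc' + 8 ≤ Xc)
    (hx : |x0| ≤ 8 * 16 ^ k) (h : |x| ≤ Xc' * 16 ^ max a a) : |x + x0| ≤ Xc * 16 ^ max k a := by
  rw [max_self] at h
  rw [max_eq_left hak]
  have h1 : (16 : ℤ) ^ a ≤ 16 ^ k := pow_le_pow_right₀ (by norm_num) hak
  have h2 : (0 : ℤ) < 16 ^ k := by positivity
  have h3 := abs_add_le x x0
  nlinarith

theorem LL_shift (h : ShP P P' x0) (hK : 0 ≤ K0) (hak : a ≤ k) (hx : |x0| ≤ 8 * 16 ^ k)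
    (hX : 0 ≤ Xc') (hXX : Xc' + 8 ≤ Xc)
    (hL : LL P q K0 Xc k a s t) : LL P' q (9 * K0 * (101 / 100) ^ (k - a)) Xc' a a s t := by
  intro x y hx1 hy1 hxy hr
  have h0 : (0 : ℤ) < 16 ^ a := by positivity
  have h4 := hL (x + x0) (y + x0) (pos_shift hak hX hXX hx hx1) (pos_shift hak hX hXX hx hy1)
    (by
      rw [add_sub_add_right_eq_sub]
      nlinarith) (by
      obtain ⟨h1, h2⟩ := hr
      refine ⟨?_, ?_⟩
      · simp only [add_sub_add_right_eq_sub] at h1 ⊢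
        exact h1
      · simp only [add_sub_add_right_eq_sub] at h2 ⊢
        exact h2)
  rw [h.t]
  simp only
  have h5 : par q (s, x + x0) (t, y + x0) = par q (s, x) (t, y) := by
    unfold par
    simp only [add_sub_add_right_eq_sub]
  rw [h5] at h4
  have h6 : max |((x + x0 : ℤ) : ℝ)| |((y + x0 : ℤ) : ℝ)| ≤
      max |(x : ℝ)| |(y : ℝ)| + 8 * 16 ^ k := by
    apply max_le
    · exact le_trans (abs_shift_le hx) (by linarith [le_max_left |(x : ℝ)| |(y : ℝ)|])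
    · exact le_trans (abs_shift_le hx) (by linarith [le_max_right |(x : ℝ)| |(y : ℝ)|])
  have h7 := al_shift (a := a) (k := k) hK hak
    (le_trans (abs_nonneg (x : ℝ)) (le_max_left |(x : ℝ)| |(y : ℝ)|)) h6
  linarith

theorem IL_shift (h : ShP P P' x0) (hK : 0 ≤ K0) (hak : a ≤ k) (hx : |x0| ≤ 8 * 16 ^ k)
    (hX : 0 ≤ Xc') (hXX : Xc' + 8 ≤ Xc)
    (hL : IL P q K0 Xc k a) : IL P' q (9 * K0 * (101 / 100) ^ (k - a)) Xc' a a := by
  intro u h1 h2 h3
  obtain ⟨y, hy1, hy2, hy3⟩ := hL (u.1, u.2 + x0) h1 h2 (pos_shift hak hX hXX hx h3)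
  simp only at hy1 hy2 hy3
  refine ⟨y - x0, ?_, ?_, ?_⟩
  · rw [show y - x0 - u.2 = y - (u.2 + x0) by ring]
    exact hy1
  · obtain ⟨h4, h5⟩ := hy2
    simp only at h4 h5
    refine ⟨?_, ?_⟩
    · simp only
      rw [show u.2 - (y - x0) = u.2 + x0 - y by ring]
      exact h4
    · simp only
      rw [show u.2 - (y - x0) = u.2 + x0 - y by ring]
      exact h5
  · rw [h.t]
    simp only [sub_add_cancel]
    have h6 : |((u.2 + x0 : ℤ) : ℝ)| ≤ |(u.2 : ℝ)| + 8 * 16 ^ k := abs_shift_le hx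
    have h7 := al_shift (a := a) (k := k) hK hak (abs_nonneg (u.2 : ℝ)) h6
    linarith

theorem pf_SHF : T_SHF := by
  intro q K0 Xc Xc' x0 a I k ω hK ha hak hkI hx hX hXX hG i hi1 hi2
  obtain rfl : i = a := le_antisymm hi2 hi1
  have hN := hG i le_rfl (le_trans hak hkI)
  have hf := shP_fwd ω x0
  have hb := shP_bwd ω x0
  exact ⟨UL_shift hf hK hak hx hN.um, UL_shift hf hK hak hx hN.up,
    LL_shift hf hK hak hx hX hXX hN.lm, LL_shift hf hK hak hx hX hXX hN.lp,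
    fun _ => UL_shift hf hK hak hx (hN.uc rfl), fun _ => LL_shift hf hK hak hx hX hXX (hN.lc rfl),
    fun _ => IL_shift hf hK hak hx hX hXX (hN.il rfl),
    fun _ => IL_shift hb hK hak hx hX hXX (hN.ir rfl)⟩

end Pool.Agent.H3.NT
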