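import Pool.Agent.H84.NT.Targets3
import Pool.Agent.H17.INS.DER

/-!
# Finite dependence of the swap event, uniformly in the position of the large centre
-/

open MeasureTheory ProbabilityTheory
open scoped ENNReal

namespace Pool.Agent.H3.NT

open Pool.Agent.H99.NS Pool.Agent.H22.LPP Pool.Agent.H95.INS Pool.Agent.H84.NT
open Pool.Agent.H17.INS (near_congr)

theorem geod_congr {ω ω' : Env} {o e : Site} (h : ∀ x ∈ dom o e, ω x = ω' x) (g : ℤ → ℤ)
    (hg : Geod ω o e g) : Geod ω' o e g := by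
  obtain ⟨h1, h2⟩ := hg
  refine ⟨h1, ?_⟩
  rw [← T_congr h, ← h2]
  refine (wt_congr ?_).symm
  intro r hr1 hr2
  exact h _ ⟨hr1, (h1.left hr2).reach hr1.le, (h1.right hr1.le).reach hr2⟩

theorem lam_congr {ω ω' : Env} {o e : Site} (h : ∀ x ∈ dom o e, ω x = ω' x) :
    Lam ω o e = Lam ω' o e := by
  funext r
  unfold Lam
  congr 1
  ext y
  constructor
  · rintro ⟨g, hg, hy⟩
    exact ⟨g, geod_congr h g hg, hy⟩
  · rintro ⟨g, hg, hy⟩
    exact ⟨g, geod_congr (fun x hx => (h x hx).symm) g hg, hy⟩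

theorem DE_mp {D : Dat} {J1 J2 : ℤ} {ω ω' : Env} {o e : Site} (h : ∀ x ∈ dom o e, ω x = ω' x)
    (hd : DE D J1 J2 ω o e) : DE D J1 J2 ω' o e := by
  obtain ⟨⟨g, g', hg, hg', h1⟩, h2⟩ := hd
  refine ⟨⟨g, g', (near_congr h _ _).1 hg, (near_congr h _ _).1 hg', h1⟩, ?_⟩
  intro g g' hg hg'
  exact h2 g g' ((near_congr h _ _).2 hg) ((near_congr h _ _).2 hg')

/-- Size of the box of sites which matter. -/
def MM (Da : Dat) (z1 : ℤ) : ℤ := 768 * |Da.n| + |z1| + |Da.X| + |Da.A * Da.w|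

theorem shift_dom {z : Site} {o e x : Site} (hx : x ∈ dom (o - z) (e - z)) : x + z ∈ dom o e := by
  obtain ⟨h1, h2, h3⟩ := hx
  refine ⟨?_, ?_, ?_⟩
  · simp only [Prod.fst_sub, Prod.fst_add] at h1 ⊢
    omega
  · obtain ⟨h4, h5⟩ := h2
    simp only [Prod.fst_sub, Prod.snd_sub] at h4 h5
    refine ⟨?_, ?_⟩
    · have e1 : (x + z).2 - o.2 = x.2 - (o.2 - z.2) := by simp only [Prod.snd_add]; ring
      have e2 : (x + z).1 - o.1 = x.1 - (o.1 - z.1) := by simp only [Prod.fst_add]; ring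
      rw [e1, e2]
      exact h4
    · have e1 : (x + z).1 - o.1 + ((x + z).2 - o.2) = x.1 - (o.1 - z.1) + (x.2 - (o.2 - z.2)) := by
        simp only [Prod.snd_add, Prod.fst_add]; ring
      rw [e1]
      exact h5
  · obtain ⟨h4, h5⟩ := h3
    simp only [Prod.fst_sub, Prod.snd_sub] at h4 h5
    refine ⟨?_, ?_⟩
    · have e1 : e.2 - (x + z).2 = e.2 - z.2 - x.2 := by simp only [Prod.snd_add]; ring
      have e2 : e.1 - (x + z).1 = e.1 - z.1 - x.1 := by simp only [Prod.fst_add]; ring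
      rw [e1, e2]
      exact h4
    · have e1 : e.1 - (x + z).1 + (e.2 - (x + z).2) = e.1 - z.1 - x.1 + (e.2 - z.2 - x.2) := by
        simp only [Prod.snd_add, Prod.fst_add]; ring
      rw [e1]
      exact h5

theorem RR_congr {D Da : Dat} {z : Site} {ω ω' : Env} {o e : Site}
    (h : ∀ x ∈ dom o e, ω x = ω' x) (ω1 : Env) :
    RR Da (shiftE z (splice (Bx D) ω1 ω)) (o - z) (e - z) ↔
      RR Da (shiftE z (splice (Bx D) ω1 ω')) (o - z) (e - z) := by
  have key : ∀ x ∈ dom (o - z) (e - z), shiftE z (splice (Bx D) ω1 ω) x =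
      shiftE z (splice (Bx D) ω1 ω') x := by
    intro x hx
    have h1 := shift_dom hx
    unfold shiftE
    by_cases hb : x + z ∈ Bx D
    · rw [splice_of_mem _ _ hb, splice_of_mem _ _ hb]
    · rw [splice_of_not_mem _ _ hb, splice_of_not_mem _ _ hb]
      exact h _ h1
  constructor
  · intro h1 g hg
    exact h1 g ((near_congr key _ g).2 hg)
  · intro h1 g hg
    exact h1 g ((near_congr key _ g).1 hg)

/-- Sites near the large centre. -/
theorem shift_agree {Da : Dat} (hA : Da.Ok) {z : Site} {ω ω' : Env}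
    (hz : |z.2| ≤ Da.A * Da.w)
    (h : ∀ x : Site, |x.1| ≤ MM Da z.1 → |x.2| ≤ MM Da z.1 → ω x = ω' x) (x : Site)
    (h1 : |x.1| ≤ 256 * Da.n) (h2 : |x.2| ≤ Da.X + 512 * Da.n) :
    shiftE z ω x = shiftE z ω' x := by
  unfold shiftE
  have hn := hA.n1
  have a1 := abs_add_le x.1 z.1
  have a2 := abs_add_le x.2 z.2
  have a3 := le_abs_self Da.n
  have a4 := le_abs_self Da.X
  have a5 := le_abs_self (Da.A * Da.w)
  have a6 := abs_nonneg Da.X
  have a7 := abs_nonneg z.1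
  have a8 := abs_nonneg (Da.A * Da.w)
  apply h
  · unfold MM
    simp only [Prod.fst_add]
    linarith
  · unfold MM
    simp only [Prod.snd_add]
    linarith

theorem O1S_mp {Da : Dat} (hA : Da.Ok) {z : Site} {ω ω' : Env}
    (hz : |z.2| ≤ Da.A * Da.w)
    (h : ∀ x : Site, |x.1| ≤ MM Da z.1 → |x.2| ≤ MM Da z.1 → ω x = ω' x)
    (h1 : O1S Da (shiftE z ω)) : O1S Da (shiftE z ω') := by
  intro s t g hs hst ht hg hs' ht'
  have key : wt (shiftE z ω') s t g = wt (shiftE z ω) s t g := by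
    refine wt_congr fun r hr1 hr2 => (shift_agree hA hz h (r, g r) ?_ ?_).symm
    · rw [abs_le]; constructor <;> simp only <;> omega
    · have h3 := (path_lip hg le_rfl hr1.le hr2).1
      simp only
      rw [abs_le] at h3 hs' ⊢
      constructor <;> omega
  rw [key]
  exact h1 s t g hs hst ht hg hs' ht'

theorem LBd_mp {Da : Dat} (hA : Da.Ok) {z : Site} {ω ω' : Env}
    (hz : |z.2| ≤ Da.A * Da.w)
    (h : ∀ x : Site, |x.1| ≤ MM Da z.1 → |x.2| ≤ MM Da z.1 → ω x = ω' x) {s t : ℤ}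
    (hs : -(256 * Da.n) ≤ s) (ht : t ≤ 256 * Da.n)
    (h1 : LBd Da (shiftE z ω) s t) : LBd Da (shiftE z ω') s t := by
  intro x y hx hy hr
  have key : T (shiftE z ω) (s, x) (t, y) = T (shiftE z ω') (s, x) (t, y) := by
    refine T_congr fun v hv => shift_agree hA hz h v ?_ ?_
    · have e1 := hv.1
      have e2 := reach_le hv.2.2
      simp only at e1 e2
      rw [abs_le]; constructor <;> omega
    · have e1 := hv.1
      have e2 := reach_le hv.2.2
      have e3 := hv.2.1.1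
      simp only at e1 e2 e3
      rw [abs_le] at e3 hx ⊢
      constructor <;> omega
  rw [← key]
  exact h1 x y hx hy hr

theorem O2_mp {Da : Dat} (hA : Da.Ok) {z : Site} {ω ω' : Env}
    (hz : |z.2| ≤ Da.A * Da.w)
    (h : ∀ x : Site, |x.1| ≤ MM Da z.1 → |x.2| ≤ MM Da z.1 → ω x = ω' x)
    (h1 : O2 Da (shiftE z ω)) : O2 Da (shiftE z ω') := by
  have hn := hA.n1
  exact ⟨LBd_mp hA hz h (by omega) (by omega) h1.a, LBd_mp hA hz h (by omega) (by omega) h1.b,
    LBd_mp hA hz h (by omega) (by omega) h1.c, LBd_mp hA hz h (by omega) (by omega) h1.d,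
    LBd_mp hA hz h (by omega) (by omega) h1.e⟩

theorem SwG_mp (h_LGD : T_LGD) {D Da : Dat} {z : Site} {J1 J2 : ℤ} {ω ω' : Env} {o e : Site}
    (h : ∀ x ∈ dom o e, ω x = ω' x)
    (h' : ∀ x : Site, -(256 * D.n) < x.1 → x.1 ≤ 256 * D.n → |x.2| < 2 * D.X → ω x = ω' x)
    (h'' : ∀ x : Site, |x.1| ≤ MM Da z.1 → |x.2| ≤ MM Da z.1 → ω x = ω' x)
    (hs : SwG D Da z J1 J2 ω o e) : SwG D Da z J1 J2 ω' o e := by
  have hL := lam_congr h
  have hD := hs.rel.okD
  have hA := hs.rel.okA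
  have hz : |z.2| ≤ Da.A * Da.w := by
    have h1 := hs.rel.lat
    have h2 := hD.A2
    have h3 := hD.w1
    have h4 : 0 < D.A * D.w := by positivity
    linarith
  obtain ⟨g, hg1, hg2, hg3, hg4, hg5⟩ := hs.gam
  refine ⟨hs.rel, hs.en, hs.ena, ?_, O1S_mp hA hz h'' hs.a1, O2_mp hA hz h'' hs.a2, ?_, ?_, ?_, ?_,
    ?_, ?_, ⟨g, (near_congr h _ _).1 hg1, hg2, hg3, hg4, ?_⟩⟩
  · have h1 := (h_LGD D hD).1 ω ω' (fun x hx => h' x hx.1 hx.2.1 hx.2.2)
    rw [← h1]
    exact hs.lg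
  · rw [← hL]; exact hs.l1
  · rw [← hL]; exact hs.l2
  · rw [← hL]; exact hs.tu
  · rw [← hL]; exact hs.g1
  · rw [← hL]; exact hs.g2
  · have h1 : {ω1 | ¬ RR Da (shiftE z (splice (Bx D) ω1 ω')) (o - z) (e - z)} =
        {ω1 | ¬ RR Da (shiftE z (splice (Bx D) ω1 ω)) (o - z) (e - z)} := by
      ext ω1
      simp only [Set.mem_ofPred_eq]
      rw [RR_congr h ω1]
    rw [h1]
    exact hs.rf
  · rw [← hL]; exact hg5

theorem pf_SWD (h_LGD : T_LGD) : T_SWD := by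
  classical
  intro D Da o e z1 J1 J2 hr
  have f1 := dom_finite o e
  have f2 : {x : Site | -(256 * D.n) < x.1 ∧ x.1 ≤ 256 * D.n ∧ |x.2| < 2 * D.X}.Finite := by
    refine Set.Finite.subset (Finset.finite_toSet
      (Finset.Icc ((-(256 * D.n), -(2 * D.X)) : Site) (256 * D.n, 2 * D.X))) ?_
    rintro x ⟨h1, h2, h3⟩
    rw [abs_lt] at h3
    rw [Finset.coe_Icc, Set.mem_Icc, Prod.le_def, Prod.le_def]
    exact ⟨⟨h1.le, h3.1.le⟩, h2, h3.2.le⟩
  have f3 : {x : Site | |x.1| ≤ MM Da z1 ∧ |x.2| ≤ MM Da z1}.Finite := by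
    refine Set.Finite.subset (Finset.finite_toSet
      (Finset.Icc ((-(MM Da z1), -(MM Da z1)) : Site) (MM Da z1, MM Da z1))) ?_
    rintro x ⟨h1, h2⟩
    rw [abs_le] at h1 h2
    rw [Finset.coe_Icc, Set.mem_Icc, Prod.le_def, Prod.le_def]
    exact ⟨⟨h1.1, h2.1⟩, h1.2, h2.2⟩
  refine ⟨f1.toFinset ∪ f2.toFinset ∪ f3.toFinset, ?_, ?_⟩
  · intro y ω ω' h
    have h1 : ∀ x ∈ dom o e, ω x = ω' x := fun x hx => h x (by simp [hx])
    have h2 : ∀ x : Site, -(256 * D.n) < x.1 → x.1 ≤ 256 * D.n → |x.2| < 2 * D.X →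
        ω x = ω' x := fun x a b c => h x (by
      simp only [Finset.coe_union, Set.Finite.coe_toFinset]
      exact Or.inl (Or.inr ⟨a, b, c⟩))
    have h3 : ∀ x : Site, |x.1| ≤ MM Da z1 → |x.2| ≤ MM Da z1 → ω x = ω' x :=
      fun x a b => h x (by
        simp only [Finset.coe_union, Set.Finite.coe_toFinset]
        exact Or.inr ⟨a, b⟩)
    exact propext ⟨SwG_mp h_LGD h1 h2 h3, SwG_mp h_LGD (fun x hx => (h1 x hx).symm)
      (fun x a b c => (h2 x a b c).symm) (fun x a b => (h3 x a b).symm)⟩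
  · intro ω ω' h
    have h1 : ∀ x ∈ dom o e, ω x = ω' x := fun x hx => h x (by simp [hx])
    have hL := lam_congr h1
    simp only [hL]
    exact propext ⟨fun h2 => ⟨DE_mp h1 h2.1, h2.2⟩,
      fun h2 => ⟨DE_mp (fun x hx => (h1 x hx).symm) h2.1, h2.2⟩⟩

end Pool.Agent.H3.NT
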