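import Pool.Agent.H84.NT.Targets3

/-!
# Averaging over the environment of a set of sites
-/

open MeasureTheory ProbabilityTheory
open scoped ENNReal

namespace Pool.Agent.H3.NT

open Pool.Agent.H99.NS Pool.Agent.H22.LPP Pool.Agent.H95.INS Pool.Agent.H84.NT

theorem pf_SWG (h_FIM : T_FIM) : T_SWG := by
  intro q S Q G E p hG hE h
  have mG : MeasurableSet {ω | G ω} := h_FIM (S : Set Site) G S.finite_toSet hG
  have mE : MeasurableSet {ω | E ω} := h_FIM (S : Set Site) E S.finite_toSet hE
  have h1 := (mp_splice q Q).measure_preimage mE.nullMeasurableSet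
  have m2 : MeasurableSet ((fun p : Env × Env => splice Q p.1 p.2) ⁻¹' {ω | E ω}) :=
    (measurable_splice Q) mE
  rw [← h1, Measure.prod_apply_symm m2, ← lintegral_indicator_const mG p]
  refine lintegral_mono fun ω => ?_
  by_cases hω : ω ∈ {ω | G ω}
  · rw [Set.indicator_of_mem hω]
    exact h ω hω
  · rw [Set.indicator_of_notMem hω]
    exact bot_le

end Pool.Agent.H3.NT
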